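import Mathlib
import Pool.Agent.H16.ORS.W
import Pool.Agent.H2.ORB.EXT

/-!
# MP_5182ad_lc, oracle barrier with short advice, row EXT: extension of a real partial world
-/

open Polynomial Finset Classical
open Pool.ORB (Ad pre str Wo Enu Acc Tr inl al un LL AgO pair OM PT NP UP coUP Sig S2 PH AdvL S2L
  Fct FS Fn Val ans Hp Tp Np Sp)
open Pool.ORB.EXTP (rv rv_some rv_eq rv_none count)

namespace Pool.ORS

namespace EXTS

/-- The map whose fixed point is the extension. -/
noncomputable def Ph (en : Enu) (ω : Wo) (n : ℕ) (EE : Finset Ad)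
    (ρ : FS {e // e ∈ EE} (List Bool)) (ν : Ad → List Bool) (B : Prop) (ω' : Wo) : Wo := fun e =>
  if lev en e ≤ n then ω e
  else if (rv EE ρ e).isSome = true then rv EE ρ e
  else if e.1 = 0 then (if e ∈ EE ∧ B then some (ν e, false) else none)
  else some (ν e, decide (tr en (orc en ω') e))

theorem lev_pos (en : Enu) (e : Ad) : 0 < lev en e := by
  unfold lev
  omega

theorem Ph_causal (hORW : ORWStmt) (hACC : ACCStmt) (en : Enu) (ω : Wo)
    (n : ℕ) (EE : Finset Ad) (ρ : FS {e // e ∈ EE} (List Bool)) (ν : Ad → List Bool) (B : Prop)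
    (ω' ω'' : Wo) (e : Ad) (h : ∀ e', lev en e' < lev en e → ω' e' = ω'' e') :
    Ph en ω n EE ρ ν B ω' e = Ph en ω n EE ρ ν B ω'' e := by
  by_cases h0 : e.1 = 0
  · unfold Ph
    simp only [if_pos h0]
  · have hA : Agr en (lev en e - 1) ω' ω'' := by
      intro e' he'
      apply h
      have := lev_pos en e
      omega
    have h1 : tr en (orc en ω') e ↔ tr en (orc en ω'') e :=
      hACC.1 en (lev en e - 1) (orc en ω') (orc en ω'') e h0 (by omega)
        (hORW.2.2 en _ _ _ hA)
    have h2 : decide (tr en (orc en ω') e) = decide (tr en (orc en ω'') e) :=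
      decide_eq_decide.mpr h1
    unfold Ph
    simp only [h2]

/-- The main construction. -/
theorem main (hFIX : Pool.ORB.FIXStmt) (hORW : ORWStmt) (hACC : ACCStmt)
    (hFIN : FINStmt) (hFAC : FACStmt)
    (en : Enu) (ω : Wo) (n τ S : ℕ) (EE : Finset Ad) (hω : WF en ω)
    (hEE : ∀ e, e ∈ EE ↔ InE en n τ e) {W : Type}
    (a : {e // e ∈ EE} → W) (ρ : FS {e // e ∈ EE} (List Bool))
    (V : {e // e ∈ EE} → W → Finset (List Bool))
    (hne : ∀ e : {e // e ∈ EE}, ∃ w, w ∈ V e (a e))
    (hN3 : ∀ (e : {e // e ∈ EE}) (x : W) (w : List Bool), w ∈ V e x → w.length = nl en e.1)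
    (hρ : Fn ρ) (hv : Val V a ρ) (hc : ρ.card ≤ S) (B : Prop) :
    ∃ (ω' : Wo) (ν : Ad → List Bool), Ext en ω n S EE ω' ∧ ρ ⊆ fac EE ω' ∧
      Val V a (fac EE ω') ∧
      ∀ y : List Bool, y.length = n →
        ((rv EE ρ (0, pair (un n) y)).isSome = true ∧
          ω' (0, pair (un n) y) = rv EE ρ (0, pair (un n) y)) ∨
        (¬ (rv EE ρ (0, pair (un n) y)).isSome = true ∧
          ω' (0, pair (un n) y) = if B then some (ν (0, pair (un n) y), false) else none) := by
  -- the new needles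
  choose ν0 hν0 using hne
  let ν : Ad → List Bool := fun e => if h : e ∈ EE then ν0 ⟨e, h⟩ else
    List.replicate (nl en e) false
  have hν : ∀ e : {e // e ∈ EE}, ν e.1 ∈ V e (a e) := by
    intro e
    have : ν e.1 = ν0 e := dif_pos e.2
    rw [this]
    exact hν0 e
  have hνl : ∀ e : Ad, (ν e).length = nl en e := by
    intro e
    by_cases h : e ∈ EE
    · exact hN3 ⟨e, h⟩ _ _ (hν ⟨e, h⟩)
    · have : ν e = List.replicate (nl en e) false := dif_neg h
      rw [this, List.length_replicate]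
  obtain ⟨ω', hfix⟩ := hFIX Ad (Option (List Bool × Bool)) (lev en) (Ph en ω n EE ρ ν B) ⟨none⟩
    (fun ω' ω'' e h => Ph_causal hORW hACC en ω n EE ρ ν B ω' ω'' e h)
  -- values
  have hlow : ∀ e, lev en e ≤ n → ω' e = ω e := by
    intro e he
    rw [← hfix]
    unfold Ph
    rw [if_pos he]
  have hEn : ∀ e ∈ EE, n < lev en e := fun e he => hFIN.2.2 en n τ e ((hEE e).1 he)
  have hrv : ∀ e, (rv EE ρ e).isSome = true → ω' e = rv EE ρ e := by
    intro e h
    obtain ⟨wb, hwb⟩ := Option.isSome_iff_exists.mp h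
    obtain ⟨he, -⟩ := rv_some hwb
    have h1 := hEn e he
    rw [← hfix]
    unfold Ph
    rw [if_neg (by omega), if_pos h]
  have hrow : ∀ e, n < lev en e → ¬ (rv EE ρ e).isSome = true → e.1 = 0 →
      ω' e = if e ∈ EE ∧ B then some (ν e, false) else none := by
    intro e he h h0
    rw [← hfix]
    unfold Ph
    rw [if_neg (by omega), if_neg h, if_pos h0]
  have hact : ∀ e, n < lev en e → ¬ (rv EE ρ e).isSome = true → e.1 ≠ 0 →
      ω' e = some (ν e, decide (tr en (orc en ω') e)) := by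
    intro e he h h0
    conv_lhs => rw [← hfix]
    unfold Ph
    rw [if_neg (by omega), if_neg h, if_neg h0]
  -- validity in EE
  have hval : ∀ (e : {e // e ∈ EE}) (w : List Bool) (b : Bool), ω' e.1 = some (w, b) →
      w ∈ V e (a e) := by
    intro e w b h
    have h1 := hEn e.1 e.2
    by_cases h2 : (rv EE ρ e.1).isSome = true
    · rw [hrv e.1 h2] at h
      obtain ⟨he, h3⟩ := rv_some h
      exact hv (e, w, b) h3
    · by_cases h0 : e.1.1 = 0
      · rw [hrow e.1 h1 h2 h0] at h
        by_cases hB : e.1 ∈ EE ∧ B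
        · rw [if_pos hB] at h
          simp only [Option.some.injEq, Prod.mk.injEq] at h
          rw [← h.1]
          exact hν e
        · rw [if_neg hB] at h
          exact absurd h (by simp)
      · rw [hact e.1 h1 h2 h0] at h
        simp only [Option.some.injEq, Prod.mk.injEq] at h
        rw [← h.1]
        exact hν e
  have hAgr : Agr en n ω ω' := fun e he => (hlow e he).symm
  have hWF : WF en ω' := by
    refine ⟨?_, ?_⟩
    · intro e w b h
      by_cases h1 : lev en e ≤ n
      · rw [hlow e h1] at h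
        exact hω.wf e w b h
      · by_cases h2 : e ∈ EE
        · exact hN3 ⟨e, h2⟩ (a ⟨e, h2⟩) w (hval ⟨e, h2⟩ w b h)
        · have h3 : ¬ (rv EE ρ e).isSome = true := by
            intro h4
            obtain ⟨wb, hwb⟩ := Option.isSome_iff_exists.mp h4
            exact h2 (rv_some hwb).1
          by_cases h0 : e.1 = 0
          · rw [hrow e (by omega) h3 h0, if_neg (fun h5 => h2 h5.1)] at h
            exact absurd h (by simp)
          · rw [hact e (by omega) h3 h0] at h
            simp only [Option.some.injEq, Prod.mk.injEq] at h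
            rw [← h.1]
            exact hνl e
    · intro i z
      by_cases h1 : lev en (i + 1, z) ≤ n
      · rw [hlow _ h1]
        exact hω.tot i z
      · by_cases h4 : (rv EE ρ (i + 1, z)).isSome = true
        · rw [hrv _ h4]
          intro h5
          rw [h5] at h4
          exact absurd h4 (by simp)
        · rw [hact _ (by omega) h4 (Nat.succ_ne_zero i)]
          simp
  refine ⟨ω', ν, ⟨hWF, hAgr, ?_, ρ.image (fun f => f.1.1), Finset.card_image_le.trans hc, ?_, ?_⟩,
    ?_, ?_, ?_⟩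
  · intro e h0 he hn
    have h3 : ¬ (rv EE ρ e).isSome = true := by
      intro h4
      obtain ⟨wb, hwb⟩ := Option.isSome_iff_exists.mp h4
      exact he (rv_some hwb).1
    rw [hrow e hn h3 h0, if_neg (fun h5 => he h5.1)]
  · intro e he
    obtain ⟨f, -, rfl⟩ := Finset.mem_image.mp he
    exact f.1.2
  · intro e hn hw
    by_contra hcon
    have h3 : ¬ (rv EE ρ e).isSome = true := by
      intro h4
      obtain ⟨wb, hwb⟩ := Option.isSome_iff_exists.mp h4
      obtain ⟨he, h5⟩ := rv_some hwb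
      exact hcon (Finset.mem_image.mpr ⟨_, h5, rfl⟩)
    refine hw.2 ?_
    rw [hact e hn h3 hw.1]
    constructor
    · rintro ⟨w', h2⟩
      simp only [Option.some.injEq, Prod.mk.injEq] at h2
      exact of_decide_eq_true h2.2
    · intro h2
      exact ⟨ν e, by rw [decide_eq_true h2]⟩
  · intro f hf
    rw [hFAC.1]
    have h1 := rv_eq hρ f hf
    rw [hrv f.1.1 (by rw [h1]; rfl), h1]
  · intro f hf
    rw [hFAC.1] at hf
    exact hval f.1 f.2.1 f.2.2 hf
  · intro y hy
    have hmem : ((0, pair (un n) y) : Ad) ∈ EE := by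
      rw [hEE]
      left
      exact ⟨rfl, y, hy, rfl⟩
    by_cases h1 : (rv EE ρ (0, pair (un n) y)).isSome = true
    · left
      exact ⟨h1, hrv _ h1⟩
    · right
      refine ⟨h1, ?_⟩
      rw [hrow _ (hEn _ hmem) h1 rfl]
      by_cases hB : B
      · rw [if_pos ⟨hmem, hB⟩, if_pos hB]
      · rw [if_neg (fun h5 => hB h5.2), if_neg hB]

end EXTS

/-- **EXT.** -/
theorem ext_row (hFIX : Pool.ORB.FIXStmt) (hSTR : STRStmt) (hORW : ORWStmt) (hACC : ACCStmt)
    (hFIN : FINStmt) (hNDL : NDLStmt) (hFAC : FACStmt) : EXTStmt := by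
  intro en ω κ n τ S EE hω hn hEE hS a ρ hρ hv hc
  have hlen : ∀ e ∈ EE, 6 * κ ≤ nl en e := by
    intro e he
    have := hFIN.2.1 en n τ κ e hn ((hEE e).1 he)
    omega
  obtain ⟨hN1, hN2, hN3⟩ := hNDL en EE κ hlen
  have hne : ∀ e : {e // e ∈ EE}, ∃ w, w ∈ ndl en (4 * κ) EE e (a e) := by
    intro e
    have h1 : 0 < (ndl en (4 * κ) EE e (a e)).card :=
      lt_of_lt_of_le (by positivity) (hN2 e (a e))
    exact Finset.card_pos.1 h1
  have hcn : ρ.card < 2 ^ n :=
    lt_of_le_of_lt hc (lt_of_lt_of_le hS (Nat.pow_le_pow_right (by norm_num) (by omega)))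
  constructor
  · obtain ⟨ω', ν, h1, h2, h3, h4⟩ :=
      EXTS.main hFIX hORW hACC hFIN hFAC en ω n τ S EE hω hEE a ρ
        (ndl en (4 * κ) EE) hne hN3 hρ hv hc False
    refine ⟨ω', h1, h2, h3, ?_⟩
    obtain ⟨y, hy1, hy2⟩ := count ρ n hcn
      (fun e y => e = (0, pair (un n) y))
      (by
        intro e y y' h5 h6
        have h7 : (0, pair (un n) y) = ((0, pair (un n) y') : Ad) := by rw [← h5, ← h6]
        exact (hSTR.2.2.1 _ _ _ _ (Prod.mk.inj h7).2).2)
    refine ⟨y, hy1, ?_⟩
    rcases h4 y hy1 with ⟨h5, h6⟩ | ⟨h5, h6⟩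
    · exfalso
      rw [rv_none] at h5
      · exact absurd h5 (by simp)
      · intro f hf hfe
        exact hy2 f hf hfe
    · rw [h6, if_neg (by simp)]
  · obtain ⟨ω', ν, h1, h2, h3, h4⟩ :=
      EXTS.main hFIX hORW hACC hFIN hFAC en ω n τ S EE hω hEE a ρ
        (ndl en (4 * κ) EE) hne hN3 hρ hv hc True
    refine ⟨ω', h1, h2, h3, ?_⟩
    intro y hy h5
    rcases h4 y hy with ⟨h6, h7⟩ | ⟨h6, h7⟩
    · rw [← h7, h5] at h6
      exact absurd h6 (by simp)
    · rw [h7, if_pos trivial] at h5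
      exact absurd h5 (by simp)

end Pool.ORS
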